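import Mathlib

namespace Pool.Agent.MP_18c441_lc.Lam

/-- Untyped lambda terms (de Bruijn indices) with the three constants `T`, `F`, `C`. -/
inductive Tm : Type
  | var (n : ℕ)
  | T
  | F
  | C
  | app (s t : Tm)
  | lam (s : Tm)

/-- The sequence `a, f 0, f 1, ...`. -/
def cons {α : Type*} (a : α) (f : ℕ → α) : ℕ → α
  | 0 => a
  | n + 1 => f n

/-- Renaming of the free variables. -/
def ren (ξ : ℕ → ℕ) : Tm → Tm
  | .var n => .var (ξ n)
  | .T => .T
  | .F => .F
  | .C => .C
  | .app s t => .app (ren ξ s) (ren ξ t)
  | .lam s => .lam (ren (cons 0 fun n => ξ n + 1) s)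

/-- Simultaneous capture-avoiding substitution. -/
def sub (σ : ℕ → Tm) : Tm → Tm
  | .var n => σ n
  | .T => .T
  | .F => .F
  | .C => .C
  | .app s t => .app (sub σ s) (sub σ t)
  | .lam s => .lam (sub (cons (.var 0) fun n => ren (· + 1) (σ n)) s)

/-- One step in any context; `E` decides the condition of the conditional rule. -/
inductive Step (E : Tm → Tm → Prop) : Tm → Tm → Prop
  | beta (s t : Tm) : Step E (.app (.lam s) t) (sub (cons t .var) s)
  | cT (x y : Tm) : Step E (.app (.app (.app .C .T) x) y) x
  | cF (x y : Tm) : Step E (.app (.app (.app .C .F) x) y) y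
  | cond (z x y : Tm) : E x y → Step E (.app (.app (.app .C z) x) y) x
  | appL (s s' t : Tm) : Step E s s' → Step E (.app s t) (.app s' t)
  | appR (s t t' : Tm) : Step E t t' → Step E (.app s t) (.app s t')
  | lam (s s' : Tm) : Step E s s' → Step E (.lam s) (.lam s')

/-- The stratified relations: level 0 is empty, level `n+1` reads the condition as
convertibility at level `n`. -/
def level : ℕ → Tm → Tm → Prop
  | 0 => fun _ _ => False
  | n + 1 => Step (Relation.EqvGen (level n))

/-- The rewrite relation, the union of the levels. -/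
def Red (s t : Tm) : Prop := ∃ n, level n s t

end Pool.Agent.MP_18c441_lc.Lam
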